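import Pool.Agent.Q51.SE.Stm
import Pool.Agent.Q239.EL.UN

/-!
# Project SE (helper51), job UNQ
-/

set_option autoImplicit false

open Polynomial NumberField IsDedekindDomain Pool.Agent.Q51.SE

noncomputable section

namespace Pool.Agent.Q26.SE

/-- the `q`-th powers of units have finite index -/
lemma pow_finite {L : Type} [Field L] [NumberField L] (q : ℕ) (hq : 0 < q) :
    Finite ((𝓞 L)ˣ ⧸ (powMonoidHom q : (𝓞 L)ˣ →* (𝓞 L)ˣ).range) := by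
  have hfg : Group.FG (𝓞 L)ˣ := Group.fg_iff_monoid_fg.mpr inferInstance
  refine CommGroup.finite_of_fg_isMulTorsion _ (fun z => ?_)
  obtain ⟨u, rfl⟩ := QuotientGroup.mk_surjective z
  rw [isOfFinOrder_iff_pow_eq_one]
  refine ⟨q, hq, ?_⟩
  change (QuotientGroup.mk u : (𝓞 L)ˣ ⧸ (powMonoidHom q : (𝓞 L)ˣ →* (𝓞 L)ˣ).range) ^ q = 1
  rw [← QuotientGroup.mk_pow, QuotientGroup.eq_one_iff]
  exact ⟨u, rfl⟩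

theorem unq : S_UNQ := by
  classical
  intro L _ _ n hn
  obtain ⟨C, hC, hu⟩ := Pool.Agent.Q239.EL.un_aux (L := L)
  have hfin : Finite ((𝓞 L)ˣ ⧸ (powMonoidHom n : (𝓞 L)ˣ →* (𝓞 L)ˣ).range) := pow_finite n hn
  let _ := Fintype.ofFinite ((𝓞 L)ˣ ⧸ (powMonoidHom n : (𝓞 L)ˣ →* (𝓞 L)ˣ).range)
  set M : ℝ := ∑ q : (𝓞 L)ˣ ⧸ (powMonoidHom n : (𝓞 L)ˣ →* (𝓞 L)ˣ).range,
    ∑ σ : L →+* ℂ, ‖σ ((((q.out)⁻¹ : (𝓞 L)ˣ) : 𝓞 L) : L)‖ with hM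
  have hM0 : 0 ≤ M := Finset.sum_nonneg fun q _ => Finset.sum_nonneg fun σ _ => norm_nonneg _
  refine ⟨C * (M + 1), by positivity, fun α hα => ?_⟩
  obtain ⟨u, hu⟩ := hu α hα
  set q : (𝓞 L)ˣ ⧸ (powMonoidHom n : (𝓞 L)ˣ →* (𝓞 L)ˣ).range := QuotientGroup.mk u with hq
  have h1 : (q.out)⁻¹ * u ∈ (powMonoidHom n : (𝓞 L)ˣ →* (𝓞 L)ˣ).range := by
    rw [← QuotientGroup.eq]
    exact q.out_eq'
  obtain ⟨t, ht⟩ := h1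
  have ht' : t ^ n = (q.out)⁻¹ * u := ht
  refine ⟨t, fun σ => ?_⟩
  have e1 : α * (t : 𝓞 L) ^ n = (α * (u : 𝓞 L)) * (((q.out)⁻¹ : (𝓞 L)ˣ) : 𝓞 L) := by
    have : ((t ^ n : (𝓞 L)ˣ) : 𝓞 L) = (t : 𝓞 L) ^ n := Units.val_pow_eq_pow_val t n
    rw [← this, ht', Units.val_mul]
    ring
  have e2 : ((α * (t : 𝓞 L) ^ n : 𝓞 L) : L) = ((α * (u : 𝓞 L) : 𝓞 L) : L) *
      ((((q.out)⁻¹ : (𝓞 L)ˣ) : 𝓞 L) : L) := by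
    rw [e1]
    exact map_mul (algebraMap (𝓞 L) L) _ _
  rw [e2, map_mul, norm_mul]
  have h2 : ‖σ ((((q.out)⁻¹ : (𝓞 L)ˣ) : 𝓞 L) : L)‖ ≤ M := by
    have h3 := Finset.single_le_sum (f := fun σ : L →+* ℂ =>
      ‖σ ((((q.out)⁻¹ : (𝓞 L)ˣ) : 𝓞 L) : L)‖) (fun σ _ => norm_nonneg _) (Finset.mem_univ σ)
    have h4 := Finset.single_le_sum (f := fun q : (𝓞 L)ˣ ⧸
      (powMonoidHom n : (𝓞 L)ˣ →* (𝓞 L)ˣ).range => ∑ σ : L →+* ℂ,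
      ‖σ ((((q.out)⁻¹ : (𝓞 L)ˣ) : 𝓞 L) : L)‖)
      (fun q _ => Finset.sum_nonneg fun σ _ => norm_nonneg _) (Finset.mem_univ q)
    exact h3.trans h4
  have hN0 : (0 : ℝ) ≤ ((Ideal.absNorm (Ideal.span {α}) : ℕ) : ℝ) ^
      ((1 : ℝ) / Module.finrank ℚ L) := by positivity
  calc ‖σ ((α * (u : 𝓞 L) : 𝓞 L) : L)‖ * ‖σ ((((q.out)⁻¹ : (𝓞 L)ˣ) : 𝓞 L) : L)‖
      ≤ (C * ((Ideal.absNorm (Ideal.span {α}) : ℕ) : ℝ) ^ ((1 : ℝ) / Module.finrank ℚ L)) *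
        (M + 1) := mul_le_mul (hu σ) (h2.trans (by linarith)) (norm_nonneg _) (by positivity)
    _ = _ := by ring

end Pool.Agent.Q26.SE
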