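import Pool.Agent.Q51.SE.Stm
import Pool.Agent.Q91.EL.Small

/-!
# Project SE (helper51), job TYQ
-/

set_option autoImplicit false
set_option linter.deprecated false

namespace Pool.Agent.Q26.SE

open Pool.Agent.Q51.SE Pool.Agent.Q51.EL Polynomial NumberField IsDedekindDomain Finset
open Pool.Agent.Q91.EL (int_mem mem_int)

/-- inverse modulo a prime, `q`-th power -/
lemma exists_inv_pow {L : Type} [Field L] [NumberField L] (v : HeightOneSpectrum (𝓞 L)) (q : ℕ)
    (g : 𝓞 L) (hg : g ^ q ∉ v.asIdeal) : ∃ h : 𝓞 L, 1 - (g * h) ^ q ∈ v.asIdeal := by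
  rcases Nat.eq_zero_or_pos q with rfl | hq
  · refine ⟨1, ?_⟩
    rw [pow_zero, sub_self]
    exact v.asIdeal.zero_mem
  · have hg1 : g ∉ v.asIdeal := fun h => hg (Ideal.pow_mem_of_mem _ h q hq)
    have hmax : v.asIdeal.IsMaximal := v.isMaximal
    obtain ⟨h, hh⟩ := hmax.exists_inv hg1
    obtain ⟨y, hy, hy1⟩ := hh
    refine ⟨h, ?_⟩
    have h1 : 1 - g * h = y := by
      rw [← hy1]; ring
    have h2 : 1 - g * h ∣ 1 ^ q - (g * h) ^ q := sub_dvd_pow_sub_pow _ _ q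
    rw [one_pow, h1] at h2
    exact v.asIdeal.mem_of_dvd h2 hy

theorem tyq : S_TYQ := by
  intro L _ _ q B t l hl hB
  refine ⟨?_, ?_⟩
  · intro β hβ
    rcases hβ l hl hB with h | ⟨v0, h1, h2, h3, h4, -⟩
    · exact Or.inl h
    · exact Or.inr ⟨v0, h1, h2, h3, h4⟩
  · intro β hβ β' hβ' v0 hv0 hm hm'
    have key : ∀ β : 𝓞 L, Goodq q B t β → β ∈ v0.asIdeal →
        (∀ v : HeightOneSpectrum (𝓞 L), Abv v l → v ≠ v0 → β ∉ v.asIdeal) ∧
        ∃ c r : ℤ, ¬ (l : ℤ) ∣ c ∧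
        t - (r : 𝓞 L) ∈ v0.asIdeal ∧
        ∀ v : HeightOneSpectrum (𝓞 L), Abv v l → v ≠ v0 →
          ∃ g : 𝓞 L, (c : 𝓞 L) * β - ((r : 𝓞 L) - t) * g ^ q ∈ v.asIdeal := by
      intro β hβ hm
      rcases hβ l hl hB with h | ⟨v1, h1, h2, h3, h4, c, r, h5, h6, h7⟩
      · exact absurd hm (h v0 hv0)
      · have hv : v0 = v1 := by
          by_contra hne
          exact h4 v0 hv0 hne hm
        subst hv
        exact ⟨h4, c, r, h5, h6, h7⟩
    obtain ⟨-, c, r, k1, k2, k3⟩ := key β hβ hm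
    obtain ⟨k0', c', r', k1', k2', k3'⟩ := key β' hβ' hm'
    have hr : (l : ℤ) ∣ r - r' := by
      refine int_mem hl hv0 ?_
      have : ((r - r' : ℤ) : 𝓞 L) = (t - (r' : 𝓞 L)) - (t - (r : 𝓞 L)) := by push_cast; ring
      rw [this]
      exact v0.asIdeal.sub_mem k2' k2
    have hlp := Nat.prime_iff_prime_int.mp hl
    have hcop : IsCoprime (l : ℤ) c' := hlp.coprime_iff_not_dvd.2 k1'
    obtain ⟨a, b, hab⟩ := hcop
    refine ⟨b * c, fun h => ?_, fun v hv hne => ?_⟩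
    · rcases hlp.dvd_or_dvd h with h | h
      · have h1 : (l : ℤ) ∣ 1 := by
          rw [← hab]
          exact dvd_add (dvd_mul_left _ _) (h.mul_right _)
        exact hlp.not_dvd_one h1
      · exact k1 h
    · obtain ⟨g, hg⟩ := k3 v hv hne
      obtain ⟨g', hg'⟩ := k3' v hv hne
      have hβv := k0' v hv hne
      have hcv : (c' : 𝓞 L) ∉ v.asIdeal := fun h => k1' (int_mem hl hv h)
      have hgq : g' ^ q ∉ v.asIdeal := by
        intro h
        have h1 : (c' : 𝓞 L) * β' ∈ v.asIdeal := by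
          have : (c' : 𝓞 L) * β' = ((c' : 𝓞 L) * β' - ((r' : 𝓞 L) - t) * g' ^ q) +
              ((r' : 𝓞 L) - t) * g' ^ q := by ring
          rw [this]
          exact v.asIdeal.add_mem hg' (v.asIdeal.mul_mem_left _ h)
        rcases v.isPrime.mem_or_mem h1 with h2 | h2
        · exact hcv h2
        · exact hβv h2
      obtain ⟨h, hh⟩ := exists_inv_pow v q g' hgq
      refine ⟨g * h, ?_⟩
      have hrv := mem_int hv hr
      have hcc : (l : ℤ) ∣ b * c * c' - c := by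
        refine ⟨- (a * c), ?_⟩
        linear_combination c * hab
      have hccv := mem_int hv hcc
      have e : (c' : 𝓞 L) * (((b * c : ℤ) : 𝓞 L) * β - β' * (g * h) ^ q) =
          β * ((b * c * c' - c : ℤ) : 𝓞 L) + ((c : 𝓞 L) * β - ((r : 𝓞 L) - t) * g ^ q) +
          (((r : 𝓞 L) - t) * g ^ q) * (1 - (g' * h) ^ q) +
          ((g * h) ^ q * g' ^ q) * ((r - r' : ℤ) : 𝓞 L) -
          (g * h) ^ q * ((c' : 𝓞 L) * β' - ((r' : 𝓞 L) - t) * g' ^ q) := by
        push_cast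
        rw [mul_pow g' h, mul_pow g h]
        ring
      have hmem : (c' : 𝓞 L) * (((b * c : ℤ) : 𝓞 L) * β - β' * (g * h) ^ q) ∈ v.asIdeal := by
        rw [e]
        exact v.asIdeal.sub_mem (v.asIdeal.add_mem (v.asIdeal.add_mem (v.asIdeal.add_mem
          (v.asIdeal.mul_mem_left _ hccv) hg) (v.asIdeal.mul_mem_left _ hh))
          (v.asIdeal.mul_mem_left _ hrv)) (v.asIdeal.mul_mem_left _ hg')
      rcases v.isPrime.mem_or_mem hmem with h2 | h2
      · exact absurd h2 hcv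
      · exact h2

end Pool.Agent.Q26.SE
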